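import Pool.Agent.Q256.FX.Stm

set_option autoImplicit false

/-!
# Project FX, job ALG: algebraic germs
-/

open Filter Polynomial

namespace Pool.Agent.Q175.FX

open Pool.Agent.Q256.FX

theorem alg' : S_alg := by
  classical
  intro ι 𝒰 X w E _ _ g hg
  obtain ⟨P, hP0, hP⟩ := hg
  have h1 : ∀ i, ∃ c : ℕ → ℚ, ((P.coeff i : kf 𝒰 X) : Germ (𝒰 : Filter ℕ) ℚ) = (c : Germ (𝒰 : Filter ℕ) ℚ) := by
    intro i
    obtain ⟨c, hc, -⟩ := (P.coeff i).2
    exact ⟨c, hc⟩
  choose c hc using h1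
  set D := P.natDegree with hD
  have h2 : ∀ i, algebraMap (kf 𝒰 X) (RR w E) (P.coeff i) =
      Germ.coeRingHom (w.W : Filter (ℕ × ι)) (fun ω => algebraMap ℚ E (c i ω.1)) := by
    intro i
    change pull w E ((P.coeff i : kf 𝒰 X) : Germ (𝒰 : Filter ℕ) ℚ) = _
    rw [hc i, pull_coe]
    rfl
  have h3 : Germ.coeRingHom (w.W : Filter (ℕ × ι))
      (∑ i ∈ Finset.range (D + 1), (fun ω : ℕ × ι => algebraMap ℚ E (c i ω.1)) * g ^ i) = 0 := by
    rw [map_sum, ← hP, Polynomial.aeval_eq_sum_range]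
    refine Finset.sum_congr rfl fun i _ => ?_
    rw [Algebra.smul_def, h2 i, map_mul, map_pow]
    rfl
  have h4 : ∀ᶠ ω in (w.W : Filter (ℕ × ι)),
      ∑ i ∈ Finset.range (D + 1), algebraMap ℚ E (c i ω.1) * g ω ^ i = 0 := by
    have h5 := Germ.coe_eq.1 (h3 : ((∑ i ∈ Finset.range (D + 1), (fun ω : ℕ × ι => algebraMap ℚ E (c i ω.1)) * g ^ i : ℕ × ι → E) : Germ (w.W : Filter (ℕ × ι)) E) = ((0 : ℕ × ι → E) : Germ (w.W : Filter (ℕ × ι)) E))
    filter_upwards [h5] with ω hω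
    simpa using hω
  obtain ⟨i₁, hi₁⟩ : ∃ i, P.coeff i ≠ 0 := by
    by_contra hcon
    push Not at hcon
    exact hP0 (Polynomial.ext fun i => by simpa using hcon i)
  have hi₁D : i₁ ∈ Finset.range (D + 1) :=
    Finset.mem_range.2 (Nat.lt_succ_of_le (Polynomial.le_natDegree_of_ne_zero hi₁))
  have h5 : ∀ᶠ N in (𝒰 : Filter ℕ), c i₁ N ≠ 0 := by
    rw [Ultrafilter.eventually_not]
    intro h6
    apply hi₁
    have h7 : ((c i₁ : ℕ → ℚ) : Germ (𝒰 : Filter ℕ) ℚ) = ((0 : ℕ → ℚ) : Germ (𝒰 : Filter ℕ) ℚ) := Germ.coe_eq.2 h6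
    apply Subtype.ext
    rw [hc i₁, h7]
    rfl
  have h6 : ∀ᶠ ω in (w.W : Filter (ℕ × ι)), c i₁ ω.1 ≠ 0 := w.tendsto.eventually h5
  let Q : ℕ → E[X] := fun N => ∑ i ∈ Finset.range (D + 1), C (algebraMap ℚ E (c i N)) * Polynomial.X ^ i
  have hQc : ∀ N i, i ∈ Finset.range (D + 1) → (Q N).coeff i = algebraMap ℚ E (c i N) := by
    intro N i hi
    simp only [Q, finset_sum_coeff, coeff_C_mul, coeff_X_pow]
    rw [Finset.sum_eq_single i]
    · simp
    · intro j _ hj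
      rw [if_neg (Ne.symm hj), mul_zero]
    · intro h
      exact absurd hi h
  have hQd : ∀ N, (Q N).natDegree ≤ D := by
    intro N
    refine Polynomial.natDegree_sum_le_of_forall_le _ _ fun i hi => ?_
    refine (natDegree_C_mul_X_pow_le _ _).trans ?_
    exact Nat.le_of_lt_succ (Finset.mem_range.1 hi)
  let L : ℕ → List E := fun N => (Q N).roots.toList
  have hL : ∀ N, (L N).length ≤ D := by
    intro N
    rw [Multiset.length_toList]
    exact (Polynomial.card_roots' _).trans (hQd N)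
  have h7 : ∀ᶠ ω in (w.W : Filter (ℕ × ι)), ∃ i ∈ Finset.range D, g ω = (L ω.1).getD i 0 := by
    filter_upwards [h4, h6] with ω hω hω'
    have hQ0 : Q ω.1 ≠ 0 := by
      intro h8
      have := hQc ω.1 i₁ hi₁D
      rw [h8, coeff_zero] at this
      apply hω'
      have h9 : algebraMap ℚ E (c i₁ ω.1) = algebraMap ℚ E 0 := by rw [← this, map_zero]
      exact (algebraMap ℚ E).injective h9
    have hroot : g ω ∈ L ω.1 := by
      rw [Multiset.mem_toList, Polynomial.mem_roots hQ0, Polynomial.IsRoot.def]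
      simp only [Q, Polynomial.eval_finset_sum, eval_mul, eval_C, eval_pow, eval_X]
      exact hω
    obtain ⟨i, hi, he⟩ := List.getElem_of_mem hroot
    refine ⟨i, Finset.mem_range.2 (hi.trans_le (hL ω.1)), ?_⟩
    rw [List.getD_eq_getElem _ _ hi, he]
  have h8 : ∃ i ∈ Finset.range D, ∀ᶠ ω in (w.W : Filter (ℕ × ι)), g ω = (L ω.1).getD i 0 := by
    have h9 := (Ultrafilter.finite_biUnion_mem_iff (f := w.W) (is := (Finset.range D : Set ℕ)) (s := fun i => {ω | g ω = (L ω.1).getD i 0}) (Finset.finite_toSet _)).1 (by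
      refine Filter.mem_of_superset h7 ?_
      rintro ω ⟨i, hi, he⟩
      exact Set.mem_biUnion (Finset.mem_coe.2 hi) he)
    obtain ⟨i, hi, he⟩ := h9
    exact ⟨i, Finset.mem_coe.1 hi, he⟩
  obtain ⟨i, -, hi⟩ := h8
  exact ⟨fun N => (L N).getD i 0, (gm_eq w).2 hi⟩

end Pool.Agent.Q175.FX
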