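import Pool.Agent.Q256.FX.Stm

set_option autoImplicit false

/-!
# Project FX, job BAKERN: reduction to function fields of one variable
-/

open MvPolynomial

namespace Pool.Agent.Q175.FX

open Pool.Agent.Q256.FX

theorem bakern (h1 : S_baker) (h2 : S_inter) (h3 : S_conv) : S_bakern := by
  intro k K _ _ _ _ hfg n y hy halg d hd f hf hrs P hP hwd m b θ hθ i₀ i₁ i₂ i₃ h01 h02 h03 h12 h13
    h23
  refine h2 k K n y hy halg _ fun i => ?_
  set S : Set K := {z | ∃ j, j ≠ i ∧ z = y j} with hS
  set k' := IntermediateField.adjoin k S with hk'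
  have : CharZero k' := charZero_of_injective_algebraMap (algebraMap k k').injective
  have hSi : S = y '' {j | j ≠ i} := by
    ext z
    constructor
    · rintro ⟨j, hj, rfl⟩
      exact ⟨j, hj, rfl⟩
    · rintro ⟨j, hj, rfl⟩
      exact ⟨j, hj, rfl⟩
  have hfg' : (⊤ : IntermediateField k' K).FG := by
    rw [IntermediateField.fg_top_iff] at hfg ⊢
    exact Algebra.EssFiniteType.of_comp k k' K
  have htr : Transcendental k' (y i) := by
    rw [hk', IntermediateField.transcendental_adjoin_iff, hSi]
    exact hy.transcendental_adjoin (by simp)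
  have hle : IntermediateField.adjoin k (Set.range y) ≤
      (IntermediateField.adjoin k' {y i}).restrictScalars k := by
    rw [IntermediateField.adjoin_le_iff]
    rintro _ ⟨j, rfl⟩
    by_cases hj : j = i
    · subst hj
      exact IntermediateField.mem_adjoin_simple_self k' (y j)
    · have hmem : y j ∈ k' := IntermediateField.subset_adjoin k S ⟨j, hj, rfl⟩
      exact (IntermediateField.adjoin k' {y i}).algebraMap_mem ⟨y j, hmem⟩
  have halg' : Algebra.IsAlgebraic (IntermediateField.adjoin k' {y i}) K := by
    refine ⟨fun c => ?_⟩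
    exact (halg c).ringHom_of_comp_eq (IntermediateField.inclusion hle).toRingHom (RingHom.id K)
      (IntermediateField.inclusion hle).toRingHom.injective rfl
  refine h1 k' K hfg' (y i) htr halg' d hd f hf hrs P hP hwd m b θ (fun j hj => ?_) i₀ i₁ i₂ i₃ h01 h02 h03 h12 h13 h23
  obtain ⟨w, hw, hw'⟩ := hθ j hj
  refine ⟨w, hw, fun l => ?_⟩
  obtain ⟨F, hF, hFd, hF0⟩ := hw' l
  exact h3 k K n b y hy (w l) F hF hFd hF0 i

end Pool.Agent.Q175.FX
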