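import Pool.Agent.Q256.FX.Stm

set_option autoImplicit false

/-!
# Project FX, job CONV: relations over the field generated by all but one of the elements
-/

open MvPolynomial

namespace Pool.Agent.Q175.FX

open Pool.Agent.Q256.FX

/-- The total degree does not increase under a substitution by polynomials of degree at most one. -/
theorem totalDegree_aeval_le {σ τ k R : Type} [CommRing k] [CommRing R] [Algebra k R]
    (s : σ → MvPolynomial τ R) (hs : ∀ i, (s i).totalDegree ≤ 1) (F : MvPolynomial σ k) :
    (aeval s F).totalDegree ≤ F.totalDegree := by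
  rw [aeval_def, eval₂_eq]
  refine totalDegree_finsetSum_le fun μ hμ => ?_
  refine (totalDegree_mul _ _).trans ?_
  have h1 : (algebraMap k (MvPolynomial τ R) (coeff μ F)).totalDegree = 0 := by
    rw [MvPolynomial.algebraMap_apply]
    exact totalDegree_C _
  rw [h1, zero_add]
  refine (totalDegree_finsetProd _ _).trans ?_
  refine le_trans (Finset.sum_le_sum fun i _ => totalDegree_pow _ _) ?_
  refine le_trans (Finset.sum_le_sum (g := fun i => μ i) fun i _ => ?_) ?_
  · exact (Nat.mul_le_mul_left _ (hs i)).trans (by simp)
  · exact le_totalDegree hμ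

theorem conv : S_conv := by
  classical
  intro k K _ _ _ n b y hy c F hF hd h0 i
  set S : Set K := {z | ∃ j, j ≠ i ∧ z = y j} with hS
  set k' := IntermediateField.adjoin k S with hk'
  have hmem : ∀ j, j ≠ i → y j ∈ k' := fun j hj =>
    IntermediateField.subset_adjoin k S ⟨j, hj, rfl⟩
  let y' : {j : Fin n // j ≠ i} → k' := fun j => ⟨y j, hmem j j.2⟩
  let s : Fin (n + 1) → MvPolynomial (Fin 2) k' :=
    Fin.cons (X 0) (fun j => if h : j = i then X 1 else C (y' ⟨j, h⟩))
  have hsuc : ∀ j, s (Fin.succ j) = if h : j = i then X 1 else C (y' ⟨j, h⟩) := fun j => rfl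
  have hinj : Function.Injective (aeval (R := k) s : MvPolynomial (Fin (n + 1)) k → MvPolynomial (Fin 2) k') := by
    let e : Fin (n + 1) → Fin 2 ⊕ {j : Fin n // j ≠ i} :=
      Fin.cons (Sum.inl 0) (fun j => if h : j = i then Sum.inl 1 else Sum.inr ⟨j, h⟩)
    have hes : ∀ j, e (Fin.succ j) = if h : j = i then Sum.inl 1 else Sum.inr ⟨j, h⟩ := fun j => rfl
    have he0 : e 0 = Sum.inl 0 := rfl
    have he : Function.Injective e := by
      intro p q
      refine Fin.cases ?_ (fun p => ?_) p <;> refine Fin.cases ?_ (fun q => ?_) q
      · intro _; rfl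
      · rw [he0, hes]
        split_ifs <;> simp
      · rw [he0, hes]
        split_ifs <;> simp
      · rw [hes, hes]
        split_ifs with h1 h2 h2
        · intro _; rw [h1, h2]
        · intro h; simp at h
        · intro h; simp at h
        · intro h
          have := Sum.inr_injective h
          rw [Subtype.mk.injEq] at this
          rw [this]
    have hy' : Function.Injective (aeval (R := k) y' : MvPolynomial {j : Fin n // j ≠ i} k → k') := by
      have h1 : AlgebraicIndependent k (fun j : {j : Fin n // j ≠ i} => y j) :=
        hy.comp _ Subtype.val_injective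
      exact AlgebraicIndependent.of_comp k'.val h1
    have hcomp : (aeval (R := k) s) = ((mapAlgHom (σ := Fin 2) (aeval (R := k) y')).comp
        ((sumAlgEquiv k (Fin 2) {j : Fin n // j ≠ i}).toAlgHom)).comp (rename e) := by
      refine MvPolynomial.algHom_ext fun p => ?_
      refine Fin.cases ?_ (fun p => ?_) p
      · simp [he0, s]
      · by_cases h : p = i
        · simp [hes, hsuc, h]
        · simp [hes, hsuc, h]
    rw [hcomp]
    simp only [AlgHom.coe_comp]
    refine Function.Injective.comp (Function.Injective.comp ?_ ?_) (rename_injective e he)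
    · exact map_injective _ hy'
    · exact (sumAlgEquiv k (Fin 2) {j : Fin n // j ≠ i}).injective
  refine ⟨aeval s F, ?_, ?_, ?_⟩
  · intro h
    exact hF (hinj (by rw [h, map_zero]))
  · refine (totalDegree_aeval_le s (fun p => ?_) F).trans hd
    refine Fin.cases ?_ (fun p => ?_) p
    · change (X 0 : MvPolynomial (Fin 2) k').totalDegree ≤ 1
      rw [totalDegree_X]
    · rw [hsuc]
      split_ifs
      · rw [totalDegree_X]
      · rw [totalDegree_C]; omega
  · have hc : ((aeval (R := k') ![c, y i]).restrictScalars k).comp (aeval (R := k) s) = aeval (cn c y) := by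
      refine MvPolynomial.algHom_ext fun p => ?_
      refine Fin.cases ?_ (fun p => ?_) p
      · simp [s]
      · by_cases h : p = i
        · simp [hsuc, h]
        · simp [hsuc, h, y']
    have := congrArg (fun φ => φ F) hc
    simp only [AlgHom.comp_apply, AlgHom.restrictScalars_apply] at this
    rw [this, h0]

end Pool.Agent.Q175.FX
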