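import Pool.Agent.Q256.FX.Stm

set_option autoImplicit false

/-!
# Project FX, job HEN: Hensel by polynomials
-/

open MvPolynomial

namespace Pool.Agent.Q175.FX

open Pool.Agent.Q256.FX

/-- Taylor expansion of order two in the variable `0`. -/
theorem taylor2 {n : ℕ} {R : Type} [CommRing R] (y : Fin n → R) (w z : R)
    (Ψ : MvPolynomial (Fin (n + 1)) ℤ) :
    ∃ r : R, aeval (cn z y) Ψ = aeval (cn w y) Ψ + aeval (cn w y) (pderiv 0 Ψ) * (z - w) +
      r * (z - w) ^ 2 := by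
  induction Ψ using MvPolynomial.induction_on with
  | C a => exact ⟨0, by simp⟩
  | add p q hp hq =>
    obtain ⟨r, hr⟩ := hp
    obtain ⟨r', hr'⟩ := hq
    refine ⟨r + r', ?_⟩
    simp only [map_add]
    rw [hr, hr']
    ring
  | mul_X p i hp =>
    obtain ⟨r, hr⟩ := hp
    rcases Fin.eq_zero_or_eq_succ i with rfl | ⟨j, rfl⟩
    · refine ⟨aeval (cn w y) (pderiv 0 p) + r * z, ?_⟩
      simp only [map_mul, Derivation.leibniz, pderiv_X_self, smul_eq_mul, map_add, aeval_X,
        Fin.cons_zero, mul_one]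
      rw [hr]
      ring
    · refine ⟨r * y j, ?_⟩
      have h0 : (pderiv (0 : Fin (n + 1)) (X (Fin.succ j)) : MvPolynomial (Fin (n + 1)) ℤ) = 0 :=
        pderiv_X_of_ne (Fin.succ_ne_zero j)
      simp only [map_mul, Derivation.leibniz, h0, smul_eq_mul, map_add, aeval_X,
        Fin.cons_succ, mul_zero, zero_add]
      rw [hr]
      ring

/-- The rational numbers with denominator prime to `q`. -/
def Zq (q : ℕ) (hq : q.Prime) : Subring ℚ where
  carrier := {r | ¬ q ∣ r.den}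
  mul_mem' := by
    intro a b ha hb h
    rcases (hq.dvd_mul).1 (h.trans (Rat.mul_den_dvd a b)) with h | h
    · exact ha h
    · exact hb h
  one_mem' := by
    simp only [Set.mem_setOf_eq, Rat.den_one, Nat.dvd_one]
    exact hq.one_lt.ne'
  add_mem' := by
    intro a b ha hb h
    rcases (hq.dvd_mul).1 (h.trans (Rat.add_den_dvd a b)) with h | h
    · exact ha h
    · exact hb h
  zero_mem' := by
    simp only [Set.mem_setOf_eq, Rat.den_zero, Nat.dvd_one]
    exact hq.one_lt.ne'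
  neg_mem' := by
    intro a ha
    simpa using ha

theorem mem_Zq {q : ℕ} {hq : q.Prime} {r : ℚ} : r ∈ Zq q hq ↔ ¬ q ∣ r.den := Iff.rfl

theorem dv_iff {q : ℕ} {hq : q.Prime} (e : ℕ) (r : Zq q hq) :
    Dv (q ^ e) (r : ℚ) ↔ ((q : Zq q hq) ^ e) ∣ r := by
  constructor
  · rintro ⟨m, hm⟩
    have hd : ((r : ℚ).den : ℚ) ≠ 0 := by exact_mod_cast (r : ℚ).den_nz
    have hmem : ((m : ℚ) / ((r : ℚ).den : ℤ)) ∈ Zq q hq := by
      rw [mem_Zq]
      intro h
      apply mem_Zq.1 r.2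
      refine h.trans ?_
      have := Rat.den_dvd m (((r : ℚ).den : ℕ) : ℤ)
      rw [← Rat.divInt_eq_div]
      exact_mod_cast this
    refine ⟨⟨_, hmem⟩, ?_⟩
    apply Subtype.ext
    push_cast
    rw [← mul_div_assoc, eq_div_iff hd]
    have h1 := Rat.mul_den_eq_num (r : ℚ)
    rw [h1, hm]
    push_cast
    ring
  · rintro ⟨t, ht⟩
    have h1 : (r : ℚ) = (q : ℚ) ^ e * (t : ℚ) := by
      rw [ht]
      push_cast
      ring
    have h2 : (r : ℚ).num * ((t : ℚ).den : ℤ) = (q : ℤ) ^ e * (t : ℚ).num * ((r : ℚ).den : ℤ) := by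
      have h3 : ((r : ℚ).num : ℚ) = (r : ℚ) * ((r : ℚ).den : ℚ) := (Rat.mul_den_eq_num _).symm
      have h4 : ((t : ℚ).num : ℚ) = (t : ℚ) * ((t : ℚ).den : ℚ) := (Rat.mul_den_eq_num _).symm
      have h5 : (((r : ℚ).num * ((t : ℚ).den : ℤ) : ℤ) : ℚ) = (((q : ℤ) ^ e * (t : ℚ).num * ((r : ℚ).den : ℤ) : ℤ) : ℚ) := by
        push_cast
        rw [h3, h4, h1]
        ring
      exact_mod_cast h5
    have h3 : IsCoprime ((q ^ e : ℕ) : ℤ) ((t : ℚ).den : ℤ) := by
      rw [Nat.isCoprime_iff_coprime]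
      exact ((Nat.Prime.coprime_iff_not_dvd hq).2 (mem_Zq.1 t.2)).pow_left e
    unfold Dv
    refine h3.dvd_of_dvd_mul_right ?_
    rw [h2]
    push_cast
    exact ⟨(t : ℚ).num * ((r : ℚ).den : ℤ), by ring⟩

/-- Every element of `Zq` is congruent to an integer. -/
theorem exists_int {q : ℕ} {hq : q.Prime} (r : Zq q hq) : ∃ u : ℤ, (q : Zq q hq) ∣ r - u := by
  have h1 : IsCoprime ((r : ℚ).den : ℤ) (q : ℤ) := by
    rw [Nat.isCoprime_iff_coprime]
    exact ((Nat.Prime.coprime_iff_not_dvd hq).2 (mem_Zq.1 r.2)).symm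
  obtain ⟨a, b, hab⟩ := h1
  -- a * den + b * q = 1
  refine ⟨a * (r : ℚ).num, (b * r : Zq q hq), ?_⟩
  apply Subtype.ext
  push_cast
  have h2 : ((r : ℚ).num : ℚ) = (r : ℚ) * ((r : ℚ).den : ℚ) := (Rat.mul_den_eq_num _).symm
  have h3 : (a : ℚ) * ((r : ℚ).den : ℚ) + b * q = 1 := by exact_mod_cast hab
  rw [h2]
  linear_combination (-(r : ℚ)) * h3

/-- Every element of `Zq` which is not divisible by `q` has an integral inverse modulo `q`. -/
theorem exists_inv {q : ℕ} {hq : q.Prime} (r : Zq q hq) (hr : ¬ (q : Zq q hq) ∣ r) :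
    ∃ u : ℤ, (q : Zq q hq) ∣ 1 - u * r := by
  obtain ⟨v, hv⟩ := exists_int r
  have h1 : ¬ (q : ℤ) ∣ v := by
    rintro ⟨m, rfl⟩
    apply hr
    have h2 : (q : Zq q hq) ∣ (((q : ℤ) * m : ℤ) : Zq q hq) := ⟨(m : Zq q hq), by push_cast; ring⟩
    have := dvd_add hv h2
    simpa using this
  have h2 : IsCoprime v (q : ℤ) := by
    have := (Int.isCoprime_iff_gcd_eq_one (m := v) (n := (q : ℤ))).2 ?_
    · exact this
    · have h3 : Nat.Coprime v.natAbs q := by
        rw [Nat.coprime_comm, Nat.Prime.coprime_iff_not_dvd hq]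
        intro h
        exact h1 (Int.natCast_dvd.2 h)
      simpa [Int.gcd] using h3
  obtain ⟨a, b, hab⟩ := h2
  refine ⟨a, ?_⟩
  have h3 : (1 : Zq q hq) - a * r = (b : Zq q hq) * q - a * (r - v) := by
    have : ((a : Zq q hq) * v + b * q) = 1 := by exact_mod_cast congrArg (Int.cast : ℤ → Zq q hq) hab
    linear_combination (-1 : Zq q hq) * this
  rw [h3]
  exact dvd_sub (dvd_mul_left _ _) (Dvd.dvd.mul_left hv _)

/-- Evaluations at congruent points are congruent. -/
theorem aeval_congr {σ R : Type} [CommRing R] (q : R) (x x' : σ → R) (h : ∀ i, q ∣ x i - x' i)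
    (p : MvPolynomial σ ℤ) : q ∣ aeval x p - aeval x' p := by
  rw [← Ideal.mem_span_singleton, ← Ideal.Quotient.eq]
  have h1 : ∀ z : σ → R, Ideal.Quotient.mk (Ideal.span {q}) (aeval z p) =
      aeval (fun i => Ideal.Quotient.mk (Ideal.span {q}) (z i)) p := by
    intro z
    exact comp_aeval_apply (R := ℤ) (φ := (Ideal.Quotient.mk (Ideal.span {q})).toIntAlgHom) z p
  rw [h1, h1]
  congr 2
  funext i
  rw [Ideal.Quotient.eq, Ideal.mem_span_singleton]
  exact h i

theorem hen : S_hen := by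
  intro n q hq T y w Ψ hy hw hyy hww hΨ hΨ' e
  rcases isEmpty_or_nonempty T with hT | ⟨⟨s₀⟩⟩
  · exact ⟨0, fun s => (hT.false s).elim⟩
  let R := Zq q hq
  let y' : T → Fin n → R := fun s i => ⟨y s i, hy s i⟩
  let w' : T → R := fun s => ⟨w s, hw s⟩
  have hev : ∀ s (p : MvPolynomial (Fin n) ℤ), aeval (y s) p = ((aeval (y' s) p : R) : ℚ) := by
    intro s p
    exact (comp_aeval_apply (R := ℤ) (φ := R.subtype.toIntAlgHom) (y' s) p).symm
  have hev' : ∀ s (p : MvPolynomial (Fin (n + 1)) ℤ), aeval (cn (w s) (y s)) p =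
      ((aeval (cn (w' s) (y' s)) p : R) : ℚ) := by
    intro s p
    have h1 := comp_aeval_apply (R := ℤ) (φ := R.subtype.toIntAlgHom) (cn (w' s) (y' s)) p
    have h2 : (fun i => R.subtype.toIntAlgHom ((cn (w' s) (y' s) : Fin (n + 1) → R) i)) =
        (cn (w s) (y s) : Fin (n + 1) → ℚ) := by
      funext i
      refine Fin.cases ?_ (fun j => ?_) i
      · rfl
      · rfl
    rw [h2] at h1
    exact h1.symm
  have hΨ0 : ∀ s, aeval (cn (w' s) (y' s)) Ψ = 0 := by
    intro s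
    apply Subtype.ext
    rw [← hev', hΨ s]
    rfl
  have hcong : ∀ s t, ∀ p : MvPolynomial (Fin (n + 1)) ℤ,
      (q : R) ∣ aeval (cn (w' s) (y' s)) p - aeval (cn (w' t) (y' t)) p := by
    intro s t p
    refine aeval_congr (q : R) _ _ (fun i => ?_) p
    refine Fin.cases ?_ (fun j => ?_) i
    · have := (dv_iff (hq := hq) 1 (w' s - w' t)).1 (by simpa [w'] using hww s t)
      simpa using this
    · have := (dv_iff (hq := hq) 1 (y' s j - y' t j)).1 (by simpa [y'] using hyy s t j)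
      simpa using this
  set D : T → R := fun s => aeval (cn (w' s) (y' s)) (pderiv 0 Ψ) with hD
  have hD0 : ¬ (q : R) ∣ D s₀ := by
    intro h
    apply hΨ' s₀
    rw [hev']
    have := (dv_iff (hq := hq) 1 (D s₀)).2 (by simpa using h)
    simpa using this
  obtain ⟨u, hu⟩ := exists_inv (D s₀) hD0
  have hu' : ∀ s, (q : R) ∣ 1 - u * D s := by
    intro s
    have h1 := hcong s s₀ (pderiv 0 Ψ)
    have h2 : 1 - u * D s = (1 - u * D s₀) - u * (D s - D s₀) := by ring
    rw [h2]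
    exact dvd_sub hu (Dvd.dvd.mul_left h1 _)
  -- the induction
  have main : ∀ e : ℕ, ∃ p : MvPolynomial (Fin n) ℤ, ∀ s, ((q : R) ^ (e + 1)) ∣ w' s - aeval (y' s) p := by
    intro e
    induction e with
    | zero =>
      obtain ⟨v, hv⟩ := exists_int (w' s₀)
      refine ⟨C v, fun s => ?_⟩
      have h1 : (q : R) ∣ w' s - w' s₀ := by
        have := (dv_iff (hq := hq) 1 (w' s - w' s₀)).1 (by simpa [w'] using hww s s₀)
        simpa using this
      have h2 : w' s - aeval (y' s) (C v : MvPolynomial (Fin n) ℤ) = (w' s - w' s₀) + (w' s₀ - v) := by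
        simp
      rw [zero_add, pow_one, h2]
      exact dvd_add h1 hv
    | succ e ih =>
      obtain ⟨p, hp⟩ := ih
      refine ⟨p - C u * aeval (Fin.cons p X : Fin (n + 1) → MvPolynomial (Fin n) ℤ) Ψ, fun s => ?_⟩
      have h1 : aeval (y' s) (aeval (Fin.cons p X : Fin (n + 1) → MvPolynomial (Fin n) ℤ) Ψ) =
          aeval (cn (aeval (y' s) p) (y' s)) Ψ := by
        have h2 := comp_aeval_apply (R := ℤ) (φ := (aeval (y' s) : MvPolynomial (Fin n) ℤ →ₐ[ℤ] R))
          (Fin.cons p X : Fin (n + 1) → MvPolynomial (Fin n) ℤ) Ψ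
        rw [h2]
        congr 2
        funext i
        refine Fin.cases ?_ (fun j => ?_) i
        · simp
        · simp
      obtain ⟨t, ht⟩ := hp s
      obtain ⟨r, hr⟩ := taylor2 (y' s) (w' s) (aeval (y' s) p) Ψ
      rw [hΨ0, zero_add] at hr
      obtain ⟨v, hv⟩ := hu' s
      rw [map_sub, map_mul, h1, hr]
      have h3 : (aeval (y' s) (C u : MvPolynomial (Fin n) ℤ) : R) = u := by simp
      rw [h3]
      have h4 : (aeval (y' s) p : R) = w' s - (q : R) ^ (e + 1) * t := by rw [← ht]; ring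
      rw [h4]
      refine ⟨v * t + u * r * t ^ 2 * (q : R) ^ e, ?_⟩
      have h5 : aeval (cn (w' s) (y' s)) (pderiv 0 Ψ) = D s := rfl
      rw [h5]
      have h6 : (1 : R) = u * D s + q * v := by rw [← hv]; ring
      linear_combination ((q : R) ^ (e + 1) * t) * h6
  rcases e with _ | e
  · exact ⟨0, fun s => by unfold Dv; simp⟩
  · obtain ⟨p, hp⟩ := main e
    refine ⟨p, fun s => ?_⟩
    rw [hev]
    have := (dv_iff (hq := hq) (e + 1) (w' s - aeval (y' s) p)).2 (hp s)
    simpa using this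

end Pool.Agent.Q175.FX
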