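import Pool.Agent.Q256.FX.Stm

set_option autoImplicit false

/-!
# Project FX, job INTER: elements algebraic over all fields generated by all but one element
-/

open Set

namespace Pool.Agent.Q175.FX

open Pool.Agent.Q256.FX

theorem inter : S_inter := by
  intro k K _ _ _ n y hy halg c hc
  rcases isEmpty_or_nonempty (Fin n) with he | hne
  · have h1 := halg c
    rw [Set.range_eq_empty y] at h1
    rw [IntermediateField.isAlgebraic_adjoin_iff] at h1
    rw [Algebra.adjoin_empty] at h1
    exact Subalgebra.isAlgebraic_of_isAlgebraic_bot h1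
  · let M := AlgebraicIndependent.matroid k K
    have hI : M.Indep (range y) := by
      rw [AlgebraicIndependent.matroid_indep_iff]
      exact hy.to_subtype_range
    have hmem : ∀ (s : Set K), c ∈ M.closure s ↔ IsAlgebraic (Algebra.adjoin k s) c := by
      intro s
      rw [AlgebraicIndependent.matroid_closure_eq]
      exact Iff.rfl
    have h1 : c ∈ ⋂ i, M.closure {z | ∃ j, j ≠ i ∧ z = y j} := by
      rw [mem_iInter]
      intro i
      rw [hmem, ← IntermediateField.isAlgebraic_adjoin_iff]
      exact hc i
    rw [← hI.closure_iInter_eq_biInter_closure_of_forall_subset (fun i => by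
      rintro z ⟨j, -, rfl⟩
      exact mem_range_self j)] at h1
    have h2 : (⋂ i, {z | ∃ j, j ≠ i ∧ z = y j}) = (∅ : Set K) := by
      rw [eq_empty_iff_forall_notMem]
      intro z hz
      rw [mem_iInter] at hz
      obtain ⟨i₀⟩ := hne
      obtain ⟨j, -, rfl⟩ := hz i₀
      obtain ⟨j', hj', he⟩ := hz j
      exact hj' (hy.injective he.symm)
    rw [h2, hmem, Algebra.adjoin_empty] at h1
    exact Subalgebra.isAlgebraic_of_isAlgebraic_bot h1

end Pool.Agent.Q175.FX
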