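import Pool.Agent.Q256.FX.Nst

set_option autoImplicit false

/-!
# Project FX, job LG: generic points of sets which are not small
-/

open Filter

namespace Pool.Agent.Q175.FX

open Pool.Agent.Q256.FX

section

variable {ι : Type} {𝒰 : Ultrafilter ℕ} {X : ℕ → ℕ} {a : ℕ}

theorem Small.mono {B B' : Set (ℕ × ι)} (h : Small 𝒰 X a B') (hB : B ⊆ B') : Small 𝒰 X a B := by
  obtain ⟨C, hC⟩ := h
  refine ⟨C, ?_⟩
  filter_upwards [hC] with N hN
  have hs : {s | (N, s) ∈ B} ⊆ {s | (N, s) ∈ B'} := fun s hs => hB hs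
  exact ⟨hN.1.subset hs, (Nat.pow_le_pow_left (Set.ncard_le_ncard hs hN.1) a).trans hN.2⟩

theorem Small.of_eventually (ha : 1 ≤ a) {B : Set (ℕ × ι)}
    (h : ∀ᶠ N in (𝒰 : Filter ℕ), {s | (N, s) ∈ B} = ∅) : Small 𝒰 X a B := by
  refine ⟨0, ?_⟩
  filter_upwards [h] with N hN
  rw [hN]
  refine ⟨Set.finite_empty, ?_⟩
  rw [Set.ncard_empty, zero_pow (by omega)]
  exact Nat.zero_le _

theorem Small.union {B B' : Set (ℕ × ι)} (h : Small 𝒰 X a B) (h' : Small 𝒰 X a B') :
    Small 𝒰 X a (B ∪ B') := by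
  obtain ⟨C, hC⟩ := h
  obtain ⟨C', hC'⟩ := h'
  refine ⟨2 ^ a * (C + C'), ?_⟩
  filter_upwards [hC, hC'] with N h1 h2
  have e : {s | (N, s) ∈ B ∪ B'} = {s | (N, s) ∈ B} ∪ {s | (N, s) ∈ B'} := rfl
  rw [e]
  refine ⟨h1.1.union h2.1, ?_⟩
  set x := {s | (N, s) ∈ B}.ncard
  set y := {s | (N, s) ∈ B'}.ncard
  have h3 : ({s | (N, s) ∈ B} ∪ {s | (N, s) ∈ B'}).ncard ≤ x + y := Set.ncard_union_le _ _
  calc ({s | (N, s) ∈ B} ∪ {s | (N, s) ∈ B'}).ncard ^ a ≤ (x + y) ^ a :=
        Nat.pow_le_pow_left h3 a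
    _ ≤ (2 * max x y) ^ a := Nat.pow_le_pow_left (by omega) a
    _ = 2 ^ a * max x y ^ a := mul_pow _ _ _
    _ ≤ 2 ^ a * (x ^ a + y ^ a) := by
        refine Nat.mul_le_mul_left _ ?_
        rcases le_total x y with h | h
        · rw [max_eq_right h]; omega
        · rw [max_eq_left h]; omega
    _ ≤ 2 ^ a * (C * X N + C' * X N) := Nat.mul_le_mul_left _ (add_le_add h1.2 h2.2)
    _ = 2 ^ a * (C + C') * X N := by ring

end

theorem lg : S_lg := by
  intro ι 𝒰 X T a ha hT
  let F : Filter (ℕ × ι) :=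
    { sets := {A | Small 𝒰 X a (T \ A)}
      univ_sets := by
        refine Small.of_eventually ha (Eventually.of_forall fun N => ?_)
        simp
      sets_of_superset := fun {A A'} hA hAA' => Small.mono hA (Set.diff_subset_diff_right hAA')
      inter_sets := fun {A A'} hA hA' => by
        have : T \ (A ∩ A') = (T \ A) ∪ (T \ A') := Set.diff_inter
        change Small 𝒰 X a (T \ (A ∩ A'))
        rw [this]
        exact Small.union hA hA' }
  have hne : F.NeBot := by
    rw [← Filter.empty_mem_iff_bot.not.trans neBot_iff.symm] 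
    intro h
    apply hT
    have h2 : Small 𝒰 X a (T \ ∅) := h
    rwa [Set.diff_empty] at h2
  set W : Ultrafilter (ℕ × ι) := Ultrafilter.of F with hW
  have hle : (W : Filter (ℕ × ι)) ≤ F := Ultrafilter.of_le F
  have hmap : W.map Prod.fst = 𝒰 := by
    rw [← Ultrafilter.coe_le_coe]
    intro U hU
    apply hle
    change Small 𝒰 X a (T \ (Prod.fst ⁻¹' U))
    refine Small.of_eventually ha ?_
    filter_upwards [hU] with N hN
    ext s
    simp only [Set.mem_diff, Set.mem_preimage, Set.mem_setOf_eq, Set.mem_empty_iff_false, iff_false,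
      not_and, not_not]
    exact fun _ => hN
  refine ⟨⟨W, hmap⟩, ?_, ?_⟩
  · apply hle
    change Small 𝒰 X a (T \ T)
    refine Small.of_eventually ha (Eventually.of_forall fun N => ?_)
    simp
  · intro B hB hBW
    have h1 : Bᶜ ∈ W := by
      apply hle
      change Small 𝒰 X a (T \ Bᶜ)
      exact Small.mono hB (by intro x hx; simpa using hx.2)
    have h2 := W.inter_mem_iff.2 ⟨hBW, h1⟩
    rw [Set.inter_compl_self] at h2
    exact W.empty_notMem h2

end Pool.Agent.Q175.FX
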